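import Pool.Agent.V11286.MV.FieldCase

/-!
# Minimal value set polynomials with value set `U ^ v`

`K` is the field with `q = p ^ n` elements, `E` its subfield with `p ^ k` elements, `v` divides
`p ^ k - 1`, and `U` is an `E`-subspace of `K` of dimension `m` with `1 ∈ U` and `#U ^ v > 2`.
`MV286.IsMVSP`, `MV286.PSet` and `MV286.powSet` are the definitions in
`Pool.Agent.V11286.MV.Defs`.
-/

namespace Pool.Agent.Results.MP_7e38b0_nt.PowerValueSets

open Polynomial MV286

/-- If `U` is not a field, then `𝒫(U ^ v, q) = {f ^ v : f ∈ 𝒫(U, q)}`. If `U` is a field and `M`,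
with `p ^ e` elements, is the smallest subfield containing `U ^ v`, then
`𝒫(U ^ v, q) = {f ^ t : f ∈ 𝒫(M, q)}` with `t = (p ^ e - 1) v / (p ^ (m k) - 1)`. -/
theorem result (p n k v m : ℕ) (hp : p.Prime) (_hkn : k ∣ n) (hk : 0 < k) (hv : v ∣ p ^ k - 1)
    (K : Type*) [Field K] [Fintype K] (hK : Fintype.card K = p ^ n)
    (E : Subfield K) (hE : Nat.card E = p ^ k)
    (U : Submodule E K) (hm : Module.finrank E U = m) (h1 : (1 : K) ∈ U)
    (hU : 2 < (powSet v (U : Set K)).ncard) :
    ((¬ ∃ L : Subfield K, (L : Set K) = (U : Set K)) →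
      PSet (powSet v (U : Set K)) = {F | ∃ f ∈ PSet (U : Set K), F = f ^ v}) ∧
    ((∃ L : Subfield K, (L : Set K) = (U : Set K)) →
      ∀ (M : Subfield K) (e : ℕ), IsLeast {M' : Subfield K | powSet v (U : Set K) ⊆ M'} M →
        Nat.card M = p ^ e →
        PSet (powSet v (U : Set K)) =
          {F | ∃ f ∈ PSet (M : Set K), F = f ^ ((p ^ e - 1) * v / (p ^ (m * k) - 1))}) := by
  have : Fact p.Prime := ⟨hp⟩
  have : CharP K p := charP_of_card_eq_prime_pow hK
  refine ⟨fun hnf => nonfield_case (p := p) hk hv hE hm h1 hnf, ?_⟩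
  rintro ⟨L, hL⟩ M e hM he
  exact field_case (p := p) hv hE hm hU hL hM he

end Pool.Agent.Results.MP_7e38b0_nt.PowerValueSets
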